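import Mathlib
import Pool.Agent.H634R3.WG.Mov

set_option autoImplicit false

/-!
# Automorphisms of fixed odd prime order of symmetric designs
-/

namespace Pool.Agent.Results.MP_3038d1_co.MovedPoints

open Filter Topology

/-- The blocks `B i` (`i : Fin v`) form a symmetric `(v, k, lam)` design on the points `Fin v`,
`k < v`. -/
structure IsSymmetricDesign (v k lam : ℕ) (B : Fin v → Finset (Fin v)) : Prop where
  pos : 1 ≤ lam
  lt : k < v
  size : ∀ i, (B i).card = k
  pair : ∀ x y : Fin v, x ≠ y →
    (Finset.univ.filter (fun i => x ∈ B i ∧ y ∈ B i)).card = lam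

/-- Let `q` be an odd prime. The set of all `n` for which some symmetric `(v, k, lam)` design with
`k = n + lam` has an automorphism of order `q` which moves an odd number of points has natural
density zero. -/
theorem result (q : ℕ) (hq : q.Prime) (hq2 : q ≠ 2) :
    Tendsto (fun N : ℕ =>
      ({n : ℕ | n < N ∧
        ∃ (v k lam : ℕ) (B : Fin v → Finset (Fin v)) (σ : Equiv.Perm (Fin v)),
          IsSymmetricDesign v k lam B ∧ k = n + lam ∧ (∀ i, ∃ j, (B i).image σ = B j) ∧
            orderOf σ = q ∧
              Odd (Finset.univ.filter (fun x => σ x ≠ x)).card}.ncard : ℝ) / (N : ℝ))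
      atTop (𝓝 0) := by
  classical
  have h := Pool.Agent.H634R3.WG.Lam.density_mov hq hq2
  refine squeeze_zero (fun N => by positivity) (fun N => ?_) h
  refine div_le_div_of_nonneg_right ?_ (Nat.cast_nonneg N)
  unfold Pool.Agent.H771R2.Dens.cnt
  rw [← Set.ncard_coe_finset]
  have hsub : {n : ℕ | n < N ∧
        ∃ (v k lam : ℕ) (B : Fin v → Finset (Fin v)) (σ : Equiv.Perm (Fin v)),
          IsSymmetricDesign v k lam B ∧ k = n + lam ∧ (∀ i, ∃ j, (B i).image σ = B j) ∧
            orderOf σ = q ∧ Odd (Finset.univ.filter (fun x => σ x ≠ x)).card} ⊆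
      ((Finset.range N).filter (fun n => Pool.Agent.H634R3.WG.Lam.HasMov q n) : Finset ℕ) := by
    rintro n ⟨hn, v, k, lam, B, σ, hB, hk, haut, ho, hodd⟩
    rw [Finset.mem_coe, Finset.mem_filter, Finset.mem_range]
    have h1 := hB.pos
    have h2 := hB.lt
    exact ⟨hn, v, k, lam, B, σ, h1, by omega, h2, hk, hB.size, hB.pair, haut, ho, hodd⟩
  have h3 := Set.ncard_le_ncard hsub (Finset.finite_toSet _)
  refine (Nat.cast_le (α := ℝ)).2 ?_
  convert h3

end Pool.Agent.Results.MP_3038d1_co.MovedPoints
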