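import Mathlib
import Pool.Agent.H634R3.AA.Final

set_option autoImplicit false

/-!
# For almost all `v` no nontrivial symmetric design on `v` points has a solvable point-transitive
automorphism group
-/

namespace Pool.Agent.Results.MP_3038d1_co.TransitiveAlmostAll

open Filter Topology

/-- The blocks `B i` (`i : Fin v`) form a symmetric `(v, k, lam)` design on the points `Fin v`
with `2 ≤ k ≤ v - 2`, and `H` is a solvable group of automorphisms of the design acting
transitively on the points. -/
structure IsSolvableTransitiveDesign (v k lam : ℕ) (B : Fin v → Finset (Fin v))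
    (H : Subgroup (Equiv.Perm (Fin v))) : Prop where
  two_le : 2 ≤ k
  le : k + 2 ≤ v
  size : ∀ i, (B i).card = k
  pair : ∀ x y : Fin v, x ≠ y →
    (Finset.univ.filter (fun i => x ∈ B i ∧ y ∈ B i)).card = lam
  transitive : ∀ x y : Fin v, ∃ h ∈ H, h x = y
  aut : ∀ h ∈ H, ∀ i, ∃ j, (B i).image h = B j
  solvable : Group.IsSolvable H

/-- The set of all `v` for which some symmetric `(v, k, lam)` design with `2 ≤ k ≤ v - 2` has a
solvable group of automorphisms that is transitive on the points has natural density zero. -/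
theorem result :
    Tendsto (fun N : ℕ =>
      ({v : ℕ | v ≤ N ∧ ∃ (k lam : ℕ) (B : Fin v → Finset (Fin v))
        (H : Subgroup (Equiv.Perm (Fin v))), IsSolvableTransitiveDesign v k lam B H}.ncard : ℝ) /
          (N : ℝ)) atTop (𝓝 0) := by
  have h := Pool.Agent.H634R3.AA.td_tendsto
  refine squeeze_zero (fun N => by positivity) (fun N => ?_) h
  refine div_le_div_of_nonneg_right ?_ (Nat.cast_nonneg N)
  have hsub : {v : ℕ | v ≤ N ∧ ∃ (k lam : ℕ) (B : Fin v → Finset (Fin v))
        (H : Subgroup (Equiv.Perm (Fin v))), IsSolvableTransitiveDesign v k lam B H} ⊆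
      {v : ℕ | v ≤ N ∧ Pool.Agent.H634R3.AA.HasTD v} := by
    rintro v ⟨hv, k, lam, B, H, hd⟩
    have h1 := hd.le
    exact ⟨hv, k, lam, B, H, hd.two_le, hd.le, ⟨by omega, hd.size, hd.pair, hd.transitive, hd.aut,
      hd.solvable⟩⟩
  exact (Nat.cast_le (α := ℝ)).2 (Set.ncard_le_ncard hsub
    (Pool.Agent.H634R3.AA.fin_le N _))

end Pool.Agent.Results.MP_3038d1_co.TransitiveAlmostAll
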