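import Mathlib
import Pool.Agent.H634R3.WG.HadT
import Pool.Agent.H634R3.WG.Trans

set_option autoImplicit false

/-!
# Hadamard designs with a solvable point-transitive automorphism group
-/

namespace Pool.Agent.Results.MP_3038d1_co.TransitiveHadamardDesigns

/-- For every `ε > 0` there is `C` such that for all `X ≥ 3` at most `C X (log X) ^ (ε - 1)`
integers `n ≤ X` with `n ≥ 2` have the following property: there is a symmetric
`(4 n - 1, 2 n - 1, n - 1)` design (blocks `B i`) with a solvable group `H` of automorphisms that is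
transitive on the points. -/
theorem result (ε : ℝ) (hε : 0 < ε) :
    ∃ C : ℝ, 0 < C ∧ ∀ X : ℕ, 3 ≤ X →
      ({n : ℕ | n ≤ X ∧ 2 ≤ n ∧
        ∃ (B : Fin (4 * n - 1) → Finset (Fin (4 * n - 1)))
          (H : Subgroup (Equiv.Perm (Fin (4 * n - 1)))),
          (∀ i, (B i).card = 2 * n - 1) ∧
          (∀ x y, x ≠ y → (Finset.univ.filter (fun i => x ∈ B i ∧ y ∈ B i)).card = n - 1) ∧
          (∀ x y, ∃ h ∈ H, h x = y) ∧ (∀ h ∈ H, ∀ i, ∃ j, (B i).image h = B j) ∧
          Group.IsSolvable H}.ncard : ℝ) ≤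
      C * X * (Real.log X) ^ (ε - 1) := by
  obtain ⟨C, hC, h⟩ := Pool.Agent.H634R3.WG.Lam.count_had Pool.Agent.H634R3.WG.mainX ε hε
  refine ⟨C, hC, fun X hX => le_trans ?_ (h X hX)⟩
  have hfin : {n : ℕ | n ≤ X ∧ Pool.Agent.H634R3.WG.Lam.HasHadTrans n}.Finite :=
    (Set.finite_Iic X).subset fun n hn => hn.1
  exact_mod_cast Set.ncard_le_ncard (fun n hn => by
    obtain ⟨h1, h2, B, H, h3, h4, h5, h6, h7⟩ := hn
    exact ⟨h1, h2, B, H, ⟨by omega, h3, h4, h5, h6, h7⟩⟩) hfin

end Pool.Agent.Results.MP_3038d1_co.TransitiveHadamardDesigns
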